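import Pool.Agent.H90.STK.Defs

/-!
# Telescoping identities along a chain of boxes

`b 0, b 1, ..` are nested records (`b (i+1)` determines `b i`). `tel_sum`: the entropy of `b M` given
`b 0` and side information is the sum of the steps. `nf_tel` (the form (N) of the hypothesis on the
nonfull rows): if the next digits `v i` of `V` are full given `b i`, the next digits `n i` of `N`
have almost the same entropy given `(b i, v i)` and given `(b i, V)`, in the sum over the blocks.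
`once`: the mutual information with one frozen variable, summed over all blocks, is at most its
entropy.
-/

set_option autoImplicit false

namespace Pool.F4T

open Finset Real
open Pool.Agent.H49.Ent Pool.Agent.H32.Dense Pool.STK

variable {Ω β κ τ σ : Type} [Fintype Ω]

/-- The entropy of the last record is the sum of the steps. -/
theorem tel_sum {p : Ω → ℝ} (hp : IsLaw p) (b : ℕ → Ω → β) (Y : Ω → κ) (M : ℕ)
    (hb : ∀ i < M, Det p (b (i + 1)) (b i)) :
    CH p (b M) (fun ω => (b 0 ω, Y ω)) =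
      ∑ i ∈ range M, CH p (b (i + 1)) (fun ω => (b i ω, Y ω)) := by
  have hp0 := hp.nonneg
  have hdet : ∀ k ≤ M, Det p (b k) (b 0) := by
    intro k
    induction k with
    | zero => exact fun _ ω ω' _ _ h => h
    | succ k ih =>
      intro hk ω ω' h1 h2 h
      exact ih (by omega) ω ω' h1 h2 (hb k (by omega) ω ω' h1 h2 h)
  have key : ∀ k ≤ M, CH p (b k) (fun ω => (b 0 ω, Y ω)) =
      ∑ i ∈ range k, CH p (b (i + 1)) (fun ω => (b i ω, Y ω)) := by
    intro k
    induction k with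
    | zero =>
      intro _
      rw [Finset.range_zero, Finset.sum_empty]
      exact CH_eq_zero hp0 fun ω ω' _ _ hh => (Prod.ext_iff.1 hh).1
    | succ k ih =>
      intro hk
      rw [Finset.sum_range_succ, ← ih (by omega)]
      have e1 : CH p (b (k + 1)) (fun ω => (b 0 ω, Y ω)) =
          CH p (fun ω => (b (k + 1) ω, b k ω)) (fun ω => (b 0 ω, Y ω)) := by
        refine CH_congr hp0 ?_ ?_ (fun _ _ _ _ h => h) (fun _ _ _ _ h => h)
        · intro ω ω' h1 h2 hh
          have h3 : b (k + 1) ω = b (k + 1) ω' := (Prod.ext_iff.1 hh).1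
          exact Prod.ext h3 (hb k (by omega) ω ω' h1 h2 h3)
        · intro ω ω' _ _ hh
          exact (Prod.ext_iff.1 (Prod.ext_iff.1 hh).1).1
      rw [e1, CH_chain hp0]
      congr 1
      refine CH_congr hp0 (fun _ _ _ _ h => (Prod.ext_iff.1 h).1)
        (fun _ _ _ _ h => (Prod.ext_iff.1 h).1) ?_ ?_
      · intro ω ω' _ _ hh
        simp only [Prod.mk.injEq] at hh ⊢
        exact ⟨hh.1, hh.2.2⟩
      · intro ω ω' h1 h2 hh
        simp only [Prod.mk.injEq] at hh ⊢
        exact ⟨hh.1, hdet k (by omega) ω ω' h1 h2 hh.1, hh.2⟩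
  exact key M le_rfl

/-- **The hypothesis on the nonfull rows in the block form.** -/
theorem nf_tel {p : Ω → ℝ} (hp : IsLaw p) (b : ℕ → Ω → β) (M : ℕ)
    (hb : ∀ i < M, Det p (b (i + 1)) (b i)) (v : ℕ → Ω → τ) (n : ℕ → Ω → σ) (V : Ω → κ)
    (hv : ∀ i < M, Det p (b (i + 1)) (v i)) (hn : ∀ i < M, Det p (b (i + 1)) (n i))
    (hVv : ∀ i < M, Det p (fun ω => (b i ω, V ω)) (v i)) (hV : Det p (b M) V) {θ : ℝ}
    (hfull : CH p V (b 0) - θ ≤ ∑ i ∈ range M, CH p (v i) (b i)) :
    ∑ i ∈ range M, (CH p (n i) (fun ω => (b i ω, v i ω)) -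
      CH p (n i) (fun ω => (b i ω, V ω))) ≤ θ := by
  have hp0 := hp.nonneg
  -- the whole entropy in two ways
  have h1 := tel_sum hp b (fun _ => ()) M hb
  have h2 := tel_sum hp b V M hb
  have e0 : ∀ (X : Ω → β) (Z : Ω → β), CH p X (fun ω => (Z ω, ())) = CH p X Z := by
    intro X Z
    refine CH_congr hp0 (fun _ _ _ _ h => (Prod.ext_iff.1 h).1)
      (fun _ _ _ _ h => (Prod.ext_iff.1 h).1) ?_ ?_
    · intro ω ω' _ _ hh
      exact (Prod.ext_iff.1 hh).1
    · intro ω ω' _ _ hh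
      exact Prod.ext hh rfl
  rw [e0] at h1
  simp only [e0] at h1
  have h3 : CH p (b M) (b 0) = CH p V (b 0) + CH p (b M) (fun ω => (b 0 ω, V ω)) := by
    have e1 : CH p (b M) (b 0) = CH p (fun ω => (b M ω, V ω)) (b 0) := by
      refine CH_congr hp0 ?_ ?_ (fun _ _ _ _ h => h) (fun _ _ _ _ h => h)
      · intro ω ω' g1 g2 hh
        have g3 : b M ω = b M ω' := (Prod.ext_iff.1 hh).1
        exact Prod.ext g3 (hV ω ω' g1 g2 g3)
      · intro ω ω' _ _ hh
        exact (Prod.ext_iff.1 (Prod.ext_iff.1 hh).1).1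
    rw [e1, CH_chain hp0]
    congr 1
    refine CH_congr hp0 (fun _ _ _ _ h => (Prod.ext_iff.1 h).1)
      (fun _ _ _ _ h => (Prod.ext_iff.1 h).1) ?_ ?_
    · intro ω ω' _ _ hh
      simp only [Prod.mk.injEq] at hh ⊢
      tauto
    · intro ω ω' _ _ hh
      simp only [Prod.mk.injEq] at hh ⊢
      tauto
  -- one step
  have h4 : ∀ i ∈ range M, CH p (v i) (b i) + (CH p (n i) (fun ω => (b i ω, v i ω)) -
      CH p (n i) (fun ω => (b i ω, V ω))) ≤
      CH p (b (i + 1)) (b i) - CH p (b (i + 1)) (fun ω => (b i ω, V ω)) := by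
    intro i hi
    have hi' := Finset.mem_range.1 hi
    have c1 : CH p (b (i + 1)) (b i) = CH p (v i) (b i) +
        CH p (b (i + 1)) (fun ω => (b i ω, v i ω)) := by
      have e1 : CH p (b (i + 1)) (b i) = CH p (fun ω => (b (i + 1) ω, v i ω)) (b i) := by
        refine CH_congr hp0 ?_ ?_ (fun _ _ _ _ h => h) (fun _ _ _ _ h => h)
        · intro ω ω' g1 g2 hh
          have g3 : b (i + 1) ω = b (i + 1) ω' := (Prod.ext_iff.1 hh).1
          exact Prod.ext g3 (hv i hi' ω ω' g1 g2 g3)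
        · intro ω ω' _ _ hh
          exact (Prod.ext_iff.1 (Prod.ext_iff.1 hh).1).1
      rw [e1, CH_chain hp0]
      congr 1
      refine CH_congr hp0 (fun _ _ _ _ h => (Prod.ext_iff.1 h).1)
        (fun _ _ _ _ h => (Prod.ext_iff.1 h).1) ?_ ?_
      · intro ω ω' _ _ hh
        simp only [Prod.mk.injEq] at hh ⊢
        tauto
      · intro ω ω' _ _ hh
        simp only [Prod.mk.injEq] at hh ⊢
        tauto
    have c2 : ∀ {α : Type} (Z : Ω → α), CH p (b (i + 1)) Z = CH p (n i) Z +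
        CH p (b (i + 1)) (fun ω => (n i ω, Z ω)) := by
      intro α Z
      rw [← CH_chain hp0]
      refine CH_congr hp0 ?_ ?_ (fun _ _ _ _ h => h) (fun _ _ _ _ h => h)
      · intro ω ω' g1 g2 hh
        have g3 : b (i + 1) ω = b (i + 1) ω' := (Prod.ext_iff.1 hh).1
        exact Prod.ext g3 (hn i hi' ω ω' g1 g2 g3)
      · intro ω ω' _ _ hh
        exact (Prod.ext_iff.1 (Prod.ext_iff.1 hh).1).1
    have c3 := c2 (fun ω => (b i ω, v i ω))
    have c4 := c2 (fun ω => (b i ω, V ω))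
    have c5 : CH p (b (i + 1)) (fun ω => (n i ω, (b i ω, V ω))) ≤
        CH p (b (i + 1)) (fun ω => (n i ω, (b i ω, v i ω))) := by
      refine CH_mono_cond hp0 fun ω ω' g1 g2 hh => ?_
      simp only [Prod.mk.injEq] at hh ⊢
      exact ⟨hh.1, hh.2.1, hVv i hi' ω ω' g1 g2 (Prod.ext hh.2.1 hh.2.2)⟩
    linarith
  have h5 := Finset.sum_le_sum h4
  rw [Finset.sum_add_distrib, Finset.sum_sub_distrib (f := fun i => CH p (b (i + 1)) (b i)),
    ← h1, ← h2] at h5
  linarith

/-- **Freezing one variable costs its entropy once**, for all blocks together. -/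
theorem once {p : Ω → ℝ} (hp : IsLaw p) (b : ℕ → Ω → β) (M : ℕ)
    (hb : ∀ i < M, Det p (b (i + 1)) (b i)) (x : ℕ → Ω → τ) (s : Ω → σ) (K : Ω → κ)
    (hx : ∀ i < M, Det p (fun ω => (b (i + 1) ω, K ω)) (x i)) :
    ∑ i ∈ range M, (CH p (x i) (fun ω => (b i ω, K ω)) -
      CH p (x i) (fun ω => (b i ω, (s ω, K ω)))) ≤ CH p s (fun ω => (b 0 ω, K ω)) := by
  have hp0 := hp.nonneg
  have h1 := tel_sum hp b K M hb
  have h2 := tel_sum hp b (fun ω => (s ω, K ω)) M hb
  have h4 : ∀ i ∈ range M, (CH p (x i) (fun ω => (b i ω, K ω)) -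
      CH p (x i) (fun ω => (b i ω, (s ω, K ω)))) ≤
      CH p (b (i + 1)) (fun ω => (b i ω, K ω)) -
        CH p (b (i + 1)) (fun ω => (b i ω, (s ω, K ω))) := by
    intro i hi
    have hi' := Finset.mem_range.1 hi
    have c2 : ∀ {α : Type} (Z : Ω → α), Det p Z K → CH p (b (i + 1)) Z = CH p (x i) Z +
        CH p (b (i + 1)) (fun ω => (x i ω, Z ω)) := by
      intro α Z hZ
      rw [← CH_chain hp0]
      refine CH_congr hp0 ?_ ?_ (fun _ _ _ _ h => h) (fun _ _ _ _ h => h)
      · intro ω ω' g1 g2 hh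
        obtain ⟨g3, g4⟩ := Prod.ext_iff.1 hh
        exact Prod.ext g3 (hx i hi' ω ω' g1 g2 (Prod.ext g3 (hZ ω ω' g1 g2 g4)))
      · intro ω ω' _ _ hh
        exact (Prod.ext_iff.1 (Prod.ext_iff.1 hh).1).1
    have c3 := c2 (fun ω => (b i ω, K ω)) (fun ω ω' _ _ h => (Prod.ext_iff.1 h).2)
    have c4 := c2 (fun ω => (b i ω, (s ω, K ω)))
      (fun ω ω' _ _ h => (Prod.ext_iff.1 (Prod.ext_iff.1 h).2).2)
    have c5 : CH p (b (i + 1)) (fun ω => (x i ω, (b i ω, (s ω, K ω)))) ≤
        CH p (b (i + 1)) (fun ω => (x i ω, (b i ω, K ω))) := by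
      refine CH_mono_cond hp0 fun ω ω' _ _ hh => ?_
      simp only [Prod.mk.injEq] at hh ⊢
      tauto
    linarith
  have h5 := Finset.sum_le_sum h4
  rw [Finset.sum_sub_distrib (f := fun i => CH p (b (i + 1)) (fun ω => (b i ω, K ω))),
    ← h1, ← h2] at h5
  have h6 : CH p (b M) (fun ω => (b 0 ω, K ω)) ≤ CH p s (fun ω => (b 0 ω, K ω)) +
      CH p (b M) (fun ω => (s ω, (b 0 ω, K ω))) := CH_le_add hp0 _ _ _
  have h7 : CH p (b M) (fun ω => (s ω, (b 0 ω, K ω))) =
      CH p (b M) (fun ω => (b 0 ω, (s ω, K ω))) := by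
    refine CH_congr hp0 (fun _ _ _ _ h => (Prod.ext_iff.1 h).1)
      (fun _ _ _ _ h => (Prod.ext_iff.1 h).1) ?_ ?_
    · intro ω ω' _ _ hh
      simp only [Prod.mk.injEq] at hh ⊢
      tauto
    · intro ω ω' _ _ hh
      simp only [Prod.mk.injEq] at hh ⊢
      tauto
  linarith

end Pool.F4T
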